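import Pool.Agent.Lib.MP_c499db_an.Final

/-!
# MP_c499db_an, Q1: monotonicity in the measure of optimal sets for `λ₁` fails

In every dimension `d ≥ 2` there are a bounded open `D ⊂ ℝ^d`, numbers `|D| < m < m'` and an
optimal set `Ω = Ω(D,m)` such that no optimal set `Ω(D,m')` contains `Ω`, not even up to a null set.
The definitions (capacity, quasi-open sets, `H¹₀`, `λ₁`, optimal sets) are in
`Pool/Agent/Lib/MP_c499db_an/Defs.lean`.

`D` is the union of a cube `D_a` and of a much larger cube `Q_b`, far away, cut into thin slices by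
walls of small total volume. With a tiny amount of extra measure the optimal set lives around `D_a`;
with enough measure to fill the walls it lives around `Q_b` only.
-/

open MeasureTheory Set OptSet
open scoped ENNReal

namespace Pool.Agent.Results.MP_c499db_an.NotMonotone

theorem result (d : ℕ) (hd : 2 ≤ d) :
    (∃ (D : Set (V d)) (m m' : ℝ) (Ω : Set (V d)), IsOpen D ∧ QuasiOpen D ∧
      Bornology.IsBounded D ∧ volume D < ENNReal.ofReal m ∧ m < m' ∧ IsOptimal D m Ω ∧
      (∃ Ω', IsOptimal D m' Ω') ∧ ∀ Ω', IsOptimal D m' Ω' → 0 < volume (Ω \ Ω')) ∧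
    ¬ (∀ D : Set (V d), QuasiOpen D → volume D < ⊤ → ∀ m m' : ℝ,
      volume D ≤ ENNReal.ofReal m → m < m' → ∀ Ω, IsOptimal D m Ω →
        ∃ Ω', IsOptimal D m' Ω' ∧ Ω ⊆ Ω') := by
  obtain ⟨D, m, m', Ω, h1, h2, h3, h4, h5, h6, h7⟩ := OptSet.main d (by omega)
  refine ⟨⟨D, m, m', Ω, h1, quasiOpen_of_isOpen h1, h2, h3, h4, h5, h6, h7⟩, fun hall => ?_⟩
  obtain ⟨Ω', hΩ', hsub⟩ := hall D (quasiOpen_of_isOpen h1) (h3.trans ENNReal.ofReal_lt_top) m m'
    h3.le h4 Ω h5
  have := h7 Ω' hΩ'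
  rw [Set.sdiff_eq_empty.2 hsub, measure_empty] at this
  exact lt_irrefl _ this

end Pool.Agent.Results.MP_c499db_an.NotMonotone
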